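import Pool.Agent.Helper10.EK.Final
import Pool.Agent.H427.ClosedC

open Pool.Agent.Helper10.EK Pool.Agent.H427.EK

namespace Pool.Agent.Results.MP_6f2a8f_ag.ClosedCurves

/-- There is a group `Γ` acting on `ℂ³` by biholomorphic maps, freely and properly
discontinuously, such that the complex manifold `X = ℂ³/Γ` carries a complete Kähler metric
(induced by a `Γ`-invariant potential which is moreover an exhaustion of `X`), any two points of
`X` are joined by a chain of three closed embedded copies of `ℂ^*`, any two points of `X` lie on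
the image of one holomorphic map `ℂ → X`, and the fundamental group of `X` is not almost
abelian. -/
theorem result : ∃ (Γ : Type) (_ : Group Γ) (_ : MulAction Γ E), IsCoveringAction Γ ∧
    (∃ φ : E → ℝ, IsCompleteKahlerPotential φ ∧ (∀ (γ : Γ) (p : E), φ (γ • p) = φ p) ∧
      ∀ C : ℝ, ∃ K : Set E, IsCompact K ∧ ∀ p, φ p ≤ C → ∃ γ : Γ, γ • p ∈ K) ∧
    (∀ x y : Orb Γ, ∃ Z₁ Z₂ Z₃ : Set (Orb Γ),
      IsClosedCStar Γ Z₁ ∧ IsClosedCStar Γ Z₂ ∧ IsClosedCStar Γ Z₃ ∧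
      x ∈ Z₁ ∧ (Z₁ ∩ Z₂).Nonempty ∧ (Z₂ ∩ Z₃).Nonempty ∧ y ∈ Z₃) ∧
    (∀ x y : Orb Γ, ∃ F : ℂ → E, Differentiable ℂ F ∧ pr Γ (F 0) = x ∧ pr Γ (F 1) = y) ∧
    ∀ x : Orb Γ, ¬ AlmostAbelian (FundamentalGroup (Orb Γ) x) :=
  ⟨Heis, inferInstance, inferInstance, action, ⟨pot, kahler, pot_inv, exhaust⟩, closed_chain,
    lines, pi_not⟩

end Pool.Agent.Results.MP_6f2a8f_ag.ClosedCurves
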